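import Pool.Agent.N162.CV.Stm
import Pool.Agent.W619.PQ.Tr

/-!
# The norm formula for function fields
-/

set_option autoImplicit false
set_option linter.overlappingInstances false
set_option linter.unusedSectionVars false

open FF IsDedekindDomain

namespace Pool.Agent.N75.CV

open Pool.Agent.W603.LV Pool.Agent.W619.PQ Pool.Agent.N162.CV

section dd

variable {A B : Type} [CommRing A] [IsDomain A] [IsDedekindDomain A] [IsLocalRing A]
  [CommRing B] [IsDomain B] [IsDedekindDomain B] [Algebra A B] [Module.Finite A B]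
  [Module.IsTorsionFree A B] [PerfectField (FractionRing A)]

theorem inertia_one
    (hcl : @IsAlgClosed (A ⧸ IsLocalRing.maximalIdeal A)
      (Ideal.Quotient.field (IsLocalRing.maximalIdeal A)))
    (Q : Ideal B) (hQ : Q.IsMaximal) (hl : Q.LiesOver (IsLocalRing.maximalIdeal A)) :
    Q.inertiaDeg A = 1 := by
  rw [Ideal.inertiaDeg_eq_of_isMaximal (IsLocalRing.maximalIdeal A) Q]
  let := Ideal.Quotient.field (IsLocalRing.maximalIdeal A)
  have h := IsAlgClosed.algebraMap_bijective_of_isIntegral
    (k := A ⧸ IsLocalRing.maximalIdeal A) (K := B ⧸ Q)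
  have e : (A ⧸ IsLocalRing.maximalIdeal A) ≃ₗ[A ⧸ IsLocalRing.maximalIdeal A] (B ⧸ Q) :=
    LinearEquiv.ofBijective (Algebra.linearMap (A ⧸ IsLocalRing.maximalIdeal A) (B ⧸ Q)) h
  rw [← e.finrank_eq]
  exact Module.finrank_self _

open UniqueFactorizationMonoid in
theorem span_norm
    (hcl : @IsAlgClosed (A ⧸ IsLocalRing.maximalIdeal A)
      (Ideal.Quotient.field (IsLocalRing.maximalIdeal A)))
    (hover : ∀ Q : Ideal B, Q.IsPrime → Q ≠ ⊥ → Q.LiesOver (IsLocalRing.maximalIdeal A))
    {b : B} (hb : b ≠ 0) : Ideal.span {Algebra.intNorm A B b} = IsLocalRing.maximalIdeal A ^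
      (Multiset.card (normalizedFactors (Ideal.span {b}))) := by
  have hI : Ideal.span {b} ≠ ⊥ := by simpa using hb
  have h1 : (normalizedFactors (Ideal.span {b})).prod = Ideal.span {b} :=
    Ideal.prod_normalizedFactors_eq_self hI
  have h2 : (normalizedFactors (Ideal.span {b})).map (Ideal.relNorm A) =
      Multiset.replicate (Multiset.card (normalizedFactors (Ideal.span {b})))
        (IsLocalRing.maximalIdeal A) := by
    rw [Multiset.eq_replicate]
    refine ⟨Multiset.card_map _ _, ?_⟩
    intro J hJ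
    rw [Multiset.mem_map] at hJ
    obtain ⟨Q, hQ, rfl⟩ := hJ
    have hQ' : Q ≠ ⊥ := ne_zero_of_mem_normalizedFactors hQ
    rw [Ideal.mem_normalizedFactors_iff hI] at hQ
    have h3 := hover Q hQ.1 hQ'
    have h4 : Q.IsMaximal := hQ.1.isMaximal hQ'
    rw [Ideal.relNorm_eq_pow_of_isMaximal Q (IsLocalRing.maximalIdeal A), inertia_one hcl Q h4 h3,
      pow_one]
  rw [← Ideal.relNorm_singleton]
  conv_lhs => rw [← h1]
  rw [map_multiset_prod, h2, Multiset.prod_replicate]

end dd

section place

variable {Ω E : Type} [Field Ω] [Field E] [Algebra Ω E]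

theorem ord_of_span (v : Place Ω E) {z : v.O} (hz : z ≠ 0) {n : ℕ}
    (h : Ideal.span {z} = IsLocalRing.maximalIdeal v.O ^ n) : v.ord (z : E) = n := by
  obtain ⟨t, ht0, ht⟩ := v.surj
  have htr : v.Reg t := Or.inr (by omega)
  rw [← maximalIdeal_eq v ht0 ht htr, Ideal.span_singleton_pow,
    Ideal.span_singleton_eq_span_singleton] at h
  obtain ⟨u, hu⟩ := h
  have hu1 := (v.isUnit_O_iff (u : v.O).2).1 u.isUnit
  have h3 : (z : E) * ((u : v.O) : E) = t ^ n := congrArg (fun x : v.O => (x : E)) hu
  have hz0 : (z : E) ≠ 0 := fun h => hz (Subtype.ext h)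
  have h4 := v.ord_mul hz0 hu1.1
  rw [h3, v.ord_pow, ht, hu1.2] at h4
  linarith

theorem residue_closed [IsAlgClosed Ω] [CharZero Ω] [IsFF Ω E] (v : Place Ω E) :
    @IsAlgClosed (v.O ⧸ IsLocalRing.maximalIdeal v.O)
      (Ideal.Quotient.field (IsLocalRing.maximalIdeal v.O)) := by
  let := Ideal.Quotient.field (IsLocalRing.maximalIdeal v.O)
  let φ : Ω →+* v.O := (algebraMap Ω E).codRestrict v.O (fun c => v.reg_const c)
  let ψ : Ω →+* (v.O ⧸ IsLocalRing.maximalIdeal v.O) :=
    (Ideal.Quotient.mk (IsLocalRing.maximalIdeal v.O)).comp φ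
  have hψ : Function.Bijective ψ := by
    refine ⟨ψ.injective, fun x => ?_⟩
    obtain ⟨z, rfl⟩ := Ideal.Quotient.mk_surjective x
    obtain ⟨c, hc⟩ := exists_const v (show Ge v 0 (z : E) from z.2)
    refine ⟨c, ?_⟩
    change Ideal.Quotient.mk (IsLocalRing.maximalIdeal v.O) (φ c) =
      Ideal.Quotient.mk (IsLocalRing.maximalIdeal v.O) z
    rw [eq_comm, Ideal.Quotient.mk_eq_mk_iff_sub_mem, mem_maximalIdeal_iff]
    exact hc
  exact IsAlgClosed.of_ringEquiv Ω _ (RingEquiv.ofBijective ψ hψ)

end place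

/-- CV/NF -/
theorem nf_ : StNF := by
  intro Ω E M _ _ _ _ _ _ _ _ _ _ _ _ v
  classical
  let iA : Algebra v.O M := algO v
  let ik : Algebra Ω v.O := algk v
  obtain ⟨t, ht0, ht⟩ := v.surj
  have htr : v.Reg t := Or.inr (by omega)
  have : IsDiscreteValuationRing v.O := v.isDVR
  have : CharZero E := charZero_of_injective_algebraMap (algebraMap Ω E).injective
  have : IsScalarTower v.O E M := IsScalarTower.of_algebraMap_eq fun _ => rfl
  have : IsScalarTower Ω v.O M := IsScalarTower.of_algebraMap_eq fun c => by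
    rw [IsScalarTower.algebraMap_apply Ω E M]
    rfl
  let B := integralClosure v.O M
  have : IsDedekindDomain B := integralClosure.isDedekindDomain v.O E M
  have : IsFractionRing B M := integralClosure.isFractionRing_of_finite_extension E M
  have hsc : IsScalarTower Ω B M := by
    refine IsScalarTower.of_algebraMap_eq fun c => ?_
    rw [IsScalarTower.algebraMap_apply Ω v.O B, ← IsScalarTower.algebraMap_apply v.O B M,
      ← IsScalarTower.algebraMap_apply Ω v.O M]
  have hfin : Module.Finite v.O B := IsIntegralClosure.finite v.O E M B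
  have hinj : Function.Injective (algebraMap v.O M) := by
    rw [IsScalarTower.algebraMap_eq v.O E M]
    exact (algebraMap E M).injective.comp (IsFractionRing.injective v.O E)
  have htf : Module.IsTorsionFree v.O B := by
    have hinj' : Function.Injective (algebraMap v.O B) := by
      intro a b h
      apply hinj
      rw [IsScalarTower.algebraMap_apply v.O B M, IsScalarTower.algebraMap_apply v.O B M, h]
    exact Module.isTorsionFree_iff_algebraMap_injective.2 hinj'
  have hc1 : CharZero v.O := by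
    have hcc : CharZero Ω := inferInstance
    exact charZero_of_injective_algebraMap (algebraMap Ω v.O).injective
  have hc2 : CharZero (FractionRing v.O) :=
    charZero_of_injective_algebraMap (IsFractionRing.injective v.O (FractionRing v.O))
  have hperf : PerfectField (FractionRing v.O) := PerfectField.ofCharZero
  let p := IsLocalRing.maximalIdeal v.O
  have hp0 : p ≠ ⊥ := IsDiscreteValuationRing.not_a_field v.O
  have hover : ∀ Q : Ideal B, Q.IsPrime → Q ≠ ⊥ → Q.LiesOver p := by
    intro Q hQ hQ0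
    have h1 : Q.under v.O ≠ ⊥ := Ideal.under_ne_bot _ hQ0
    have h2 : (Q.under v.O).IsPrime := hQ.comap _
    have h3 : (Q.under v.O).IsMaximal := h2.isMaximal h1
    exact ⟨(IsLocalRing.eq_maximalIdeal h3).symm⟩
  have hmem : ∀ Q : Ideal B, Q ∈ IsDedekindDomain.primesOverFinset p B ↔ Q.IsPrime ∧ Q ≠ ⊥ := by
    intro Q
    rw [IsDedekindDomain.mem_primesOverFinset_iff hp0 B]
    constructor
    · rintro ⟨h1, h2⟩
      refine ⟨h1, ?_⟩
      rintro rfl
      apply hp0
      have h3 : p = Ideal.comap (algebraMap v.O B) ⊥ := h2.over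
      rw [← RingHom.ker_eq_comap_bot,
        (RingHom.injective_iff_ker_eq_bot _).1 (FaithfulSMul.algebraMap_injective v.O B)] at h3
      exact h3
    · rintro ⟨h1, h2⟩
      exact ⟨h1, hover Q h1 h2⟩
  let e : {Q // Q ∈ IsDedekindDomain.primesOverFinset p B} → Place Ω M := fun Q =>
    placeOf ⟨Q.1, ((hmem Q.1).1 Q.2).1, ((hmem Q.1).1 Q.2).2⟩
  have he : Function.Injective e := by
    intro P Q h
    have := placeOf_injective h
    exact Subtype.ext (congrArg HeightOneSpectrum.asIdeal this)
  refine ⟨Finset.univ.map ⟨e, he⟩, ?_, ?_⟩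
  · intro w
    rw [Finset.mem_map]
    constructor
    · rintro ⟨Q, -, rfl⟩ h hh
      have h1 := placeOf_reg (k := Ω) (L := M)
        ⟨Q.1, ((hmem Q.1).1 Q.2).1, ((hmem Q.1).1 Q.2).2⟩ (algebraMap v.O B ⟨h, hh⟩)
      rw [← IsScalarTower.algebraMap_apply v.O B M] at h1
      exact h1
    · intro hw
      obtain ⟨P, hP⟩ := exists_placeOf_eq (B := B) w (fun b => by
        have hb' : IsIntegral v.O (b : M) := b.2
        exact w.reg_of_isIntegral (A := v.O) (fun a => hw a a.2) hb')
      exact ⟨⟨P.asIdeal, (hmem _).2 ⟨P.isPrime, P.ne_bot⟩⟩, Finset.mem_univ _, hP⟩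
  · -- integral elements
    have hint : ∀ b : B, b ≠ 0 → v.ord (Algebra.norm E (b : M)) =
        ∑ w ∈ Finset.univ.map ⟨e, he⟩, w.ord (b : M) := by
      intro b hb
      have h1 : Ideal.span {b} ≠ ⊥ := by simpa using hb
      have h2 := span_norm (residue_closed v) hover hb
      have h3 : ((Algebra.intNorm v.O B b : v.O) : E) = Algebra.norm E (b : M) :=
        Algebra.algebraMap_intNorm (A := v.O) (K := E) (L := M) (B := B) b
      have hbM : (b : M) ≠ 0 := by simpa using hb
      have h4 : Algebra.intNorm v.O B b ≠ 0 := by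
        intro h
        rw [h] at h3
        exact Algebra.norm_ne_zero_iff.2 hbM h3.symm
      rw [← h3, ord_of_span v h4 h2, Finset.sum_map]
      have h5 : ∀ Q : {Q // Q ∈ IsDedekindDomain.primesOverFinset p B}, (e Q).ord (b : M) =
          ((Multiset.count Q.1 (UniqueFactorizationMonoid.normalizedFactors
            (Ideal.span {b})) : ℕ) : ℤ) := by
        intro Q
        let P : HeightOneSpectrum B := ⟨Q.1, ((hmem Q.1).1 Q.2).1, ((hmem Q.1).1 Q.2).2⟩
        have h6 : P.intValuation b = P.valuation M (b : M) :=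
          (HeightOneSpectrum.valuation_of_algebraMap (K := M) P b).symm
        rw [HeightOneSpectrum.intValuation_if_neg _ hb, Ideal.count_associates_factors_eq h1
          P.isPrime P.ne_bot] at h6
        have h7 : (e Q).ord (b : M) = - WithZero.log (P.valuation M (b : M)) := rfl
        rw [h7, ← h6, WithZero.log_exp, neg_neg]
      have h8 : ∑ Q ∈ Finset.univ, ((⟨e, he⟩ : {Q // Q ∈ IsDedekindDomain.primesOverFinset p B} ↪
          Place Ω M) Q).ord (b : M) = ∑ Q ∈ (Finset.univ :
          Finset {Q // Q ∈ IsDedekindDomain.primesOverFinset p B}),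
          ((Multiset.count Q.1 (UniqueFactorizationMonoid.normalizedFactors
            (Ideal.span {b})) : ℕ) : ℤ) := Finset.sum_congr rfl fun Q _ => h5 Q
      rw [h8, Finset.univ_eq_attach, Finset.sum_attach (IsDedekindDomain.primesOverFinset p B)
        (fun Q => ((Multiset.count Q (UniqueFactorizationMonoid.normalizedFactors
            (Ideal.span {b})) : ℕ) : ℤ)), ← Nat.cast_sum]
      congr 1
      symm
      apply Multiset.sum_count_eq_card
      intro Q hQ
      have hQ' : Q ≠ ⊥ := UniqueFactorizationMonoid.ne_zero_of_mem_normalizedFactors hQ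
      rw [Ideal.mem_normalizedFactors_iff h1] at hQ
      exact (hmem Q).2 ⟨hQ.1, hQ'⟩
    intro g hg
    obtain ⟨a, b, hb, rfl⟩ := IsFractionRing.div_surjective (A := B) g
    have hb0 : b ≠ 0 := nonZeroDivisors.ne_zero hb
    have ha0 : a ≠ 0 := by
      rintro rfl
      simp at hg
    have haM : (a : M) ≠ 0 := by simpa using ha0
    have hbM : (b : M) ≠ 0 := by simpa using hb0
    change v.ord (Algebra.norm E ((a : M) / (b : M))) =
      ∑ w ∈ Finset.univ.map ⟨e, he⟩, w.ord ((a : M) / (b : M))
    have h4 : Algebra.norm E (a : M) ≠ 0 := Algebra.norm_ne_zero_iff.2 haM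
    have h5 : Algebra.norm E (b : M) ≠ 0 := Algebra.norm_ne_zero_iff.2 hbM
    have h6 : Algebra.norm E ((a : M) / (b : M)) =
        Algebra.norm E (a : M) / Algebra.norm E (b : M) := by
      rw [eq_div_iff h5, ← map_mul, div_mul_cancel₀ _ hbM]
    rw [h6, v.ord_div h4 h5, hint a ha0, hint b hb0, ← Finset.sum_sub_distrib]
    exact Finset.sum_congr rfl fun w _ => (w.ord_div haM hbM).symm

end Pool.Agent.N75.CV
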